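import Pool.Agent.Helper23.WC.Spec

/-! WL (helper23), part `GENW`: the coefficients of the universal equations are algebraically
independent. -/

set_option autoImplicit false

namespace Pool.Agent.Helper81.WL.GENW

open MvPolynomial Pool.Agent.Helper23.CC Pool.Agent.Helper23.WC

lemma iv_inj {N r : ℕ} : Function.Injective (iv : Cv N r → Fin (N + 1 + 1) ⊕ Fin r) := by
  intro c c' h
  rcases c with j | i <;> rcases c' with j' | i' <;> simp [iv] at h ⊢ <;> exact h

lemma iv_ne0 {N r : ℕ} (c : Cv N r) : iv c ≠ Sum.inl 0 := by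
  rcases c with j | i
  · simp only [iv, Sum.map_inl, ne_eq, Sum.inl.injEq]
    exact Fin.succ_ne_zero _
  · simp [iv]

lemma iv_ne1 {N r : ℕ} (c : Cv N r) : iv c ≠ Sum.inl 1 := by
  rcases c with j | i
  · simp only [iv, Sum.map_inl, ne_eq, Sum.inl.injEq]
    intro h
    have : (1 : Fin (N + 1 + 1)) = (0 : Fin (N + 1)).succ := rfl
    rw [this] at h
    exact Fin.succ_ne_zero _ (Fin.succ_injective _ h)
  · simp [iv]

lemma cases_iv {N r : ℕ} (k : Fin (N + 1 + 1) ⊕ Fin r) :
    k = Sum.inl 0 ∨ k = Sum.inl 1 ∨ ∃ c, k = iv c := by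
  rcases k with k | k
  · refine Fin.cases ?_ (fun k => ?_) k
    · exact Or.inl rfl
    · refine Fin.cases ?_ (fun k => ?_) k
      · exact Or.inr (Or.inl rfl)
      · exact Or.inr (Or.inr ⟨Sum.inl k, rfl⟩)
  · exact Or.inr (Or.inr ⟨Sum.inr k, rfl⟩)

lemma bi_0 {N r : ℕ} (p q : ℕ) : (bi p q : Fin (N + 1 + 1) ⊕ Fin r →₀ ℕ) (Sum.inl 0) = p := by
  simp [bi]

lemma bi_1 {N r : ℕ} (p q : ℕ) : (bi p q : Fin (N + 1 + 1) ⊕ Fin r →₀ ℕ) (Sum.inl 1) = q := by
  simp [bi]

lemma bi_iv {N r : ℕ} (p q : ℕ) (c : Cv N r) : bi p q (iv c) = 0 := by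
  simp [bi, (iv_ne0 c).symm, (iv_ne1 c).symm]

lemma eq_bi {N r : ℕ} (m : Fin (N + 1 + 1) ⊕ Fin r →₀ ℕ) (h : ¬ nb m) :
    m = bi (m (Sum.inl 0)) (m (Sum.inl 1)) := by
  ext k
  rcases cases_iv k with rfl | rfl | ⟨c, rfl⟩
  · rw [bi_0]
  · rw [bi_1]
  · rw [bi_iv]
    by_contra hc
    exact h ⟨c, hc⟩

lemma weight_bi {N r : ℕ} (e : Fin r → ℕ) (p q : ℕ) :
    Finsupp.weight (wt e) (bi p q : Fin (N + 1 + 1) ⊕ Fin r →₀ ℕ) = p + q := by
  simp [bi, Finsupp.weight_single, wt]

lemma coeff_inr {N r : ℕ} (c : Cv N r) (q q' : ℕ) :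
    (bi q q' + Finsupp.single (iv c) 1 : Fin (N + 1 + 1) ⊕ Fin r →₀ ℕ) (Sum.inl 0) = q := by
  rw [Finsupp.add_apply, bi_0, Finsupp.single_eq_of_ne (iv_ne0 c).symm, add_zero]

lemma coeff_inr1 {N r : ℕ} (c : Cv N r) (q q' : ℕ) :
    (bi q q' + Finsupp.single (iv c) 1 : Fin (N + 1 + 1) ⊕ Fin r →₀ ℕ) (Sum.inl 1) = q' := by
  rw [Finsupp.add_apply, bi_1, Finsupp.single_eq_of_ne (iv_ne1 c).symm, add_zero]

open Classical in
/-- The point at which the differential is surjective. -/
noncomputable def pt {K : Type} [Field K] {N r s : ℕ} (B : Fin s → Cv N r → Polynomial K) :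
    TT N r s → K :=
  Sum.elim (fun _ => 0) fun am => ∑ c : Cv N r,
    if am.2 = bi (am.2 (Sum.inl 0)) (am.2 (Sum.inl 1)) + Finsupp.single (iv c) 1 then
      (B am.1 c).coeff (am.2 (Sum.inl 0)) else 0

lemma pt_inr {K : Type} [Field K] {N r s : ℕ} (B : Fin s → Cv N r → Polynomial K) (a : Fin s)
    (c : Cv N r) (q q' : ℕ) :
    pt B (.inr (a, bi q q' + Finsupp.single (iv c) 1)) = (B a c).coeff q := by
  classical
  unfold pt
  simp only [Sum.elim_inr, coeff_inr, coeff_inr1]
  rw [Finset.sum_eq_single c]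
  · rw [if_pos rfl]
  · intro c' _ hc'
    rw [if_neg]
    intro h
    have h1 := add_left_cancel h
    have h2 := (Finsupp.single_left_inj (one_ne_zero : (1 : ℕ) ≠ 0)).1 h1
    exact hc' (iv_inj h2).symm
  · intro h
    exact absurd (Finset.mem_univ _) h

lemma BB_eq {K : Type} [Field K] {N r s : ℕ} (e : Fin r → ℕ) (D : Fin s → ℕ)
    (B : Fin s → Cv N r → Polynomial K)
    (hB : ∀ a c, B a c = 0 ∨ (B a c).natDegree + om e c ≤ D a) (a : Fin s) (c : Cv N r) :
    BB e D (pt B) a c = B a c := by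
  unfold BB
  split_ifs with h
  · have h1 : (B a c).natDegree < D a - om e c + 1 := by
      rcases hB a c with h0 | h0
      · rw [h0, Polynomial.natDegree_zero]; omega
      · omega
    conv_rhs => rw [(B a c).as_sum_range_C_mul_X_pow' h1]
    refine Finset.sum_congr rfl fun q _ => ?_
    rw [pt_inr]
  · rcases hB a c with h0 | h0
    · rw [h0]
    · exact absurd (by omega) h

theorem main (hFINW : St_FINW) (hUNI : St_UNI) (hNBC : St_NBC) (hD1 : St_D1) (hBIN : St_BIN)
    (hJAC : Pool.Agent.Helper23.CC.St_JAC) : Pool.Agent.Helper23.WC.St_GENW := by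
  classical
  intro K _ _ N r s e D he hD ι hι hιe hcount
  obtain ⟨B, hB, hsurj⟩ := hBIN K N r s e D he hD ι hι hιe hcount
  have hfin : ∀ a : Fin s,
      Finite {m : Fin (N + 1 + 1) ⊕ Fin r →₀ ℕ // Finsupp.weight (wt e) m = D a} := by
    intro a
    have h : Set.Finite {m : Fin (N + 1 + 1) ⊕ Fin r →₀ ℕ | Finsupp.weight (wt e) m = D a} := by
      refine (Finset.finite_toSet (wset e (D a))).subset fun m hm => ?_
      rw [Set.mem_ofPred_eq] at hm
      rw [Finset.mem_coe, hFINW (N + 1) r e he]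
      exact hm
    exact h.to_subtype
  have : Fintype ((a : Fin s) ×
      {m : Fin (N + 1 + 1) ⊕ Fin r →₀ ℕ // Finsupp.weight (wt e) m = D a}) := Fintype.ofFinite _
  -- the coefficients at the dual point
  have e1 : ∀ (x v : TT N r s → K) (a : Fin s) (m : Fin (N + 1 + 1) ⊕ Fin r →₀ ℕ),
      aeval (dual x v) (coeff m (UF e D (fun t => (X t : MvPolynomial (TT N r s) K)) a)) =
      coeff m (UF e D (dual x v) a) := by
    intro x v a m
    have e2 := (hUNI N r s e D he).1 (MvPolynomial (TT N r s) K) (DualNumber K)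
      (aeval (dual x v) : MvPolynomial (TT N r s) K →ₐ[K] DualNumber K).toRingHom
      (fun t => X t) a
    have e3 := congrArg (coeff m) e2
    rw [coeff_map] at e3
    refine e3.trans ?_
    congr 2
    funext t
    exact aeval_X _ _
  have snb : ∀ (x v : TT N r s → K) (a : Fin s) (m : Fin (N + 1 + 1) ⊕ Fin r →₀ ℕ),
      Finsupp.weight (wt e) m = D a → nb m →
      TrivSqZeroExt.snd (coeff m (UF e D (dual x v) a)) = v (.inr (a, m)) := by
    intro x v a m hm hnb
    rw [hNBC N r s e D he _ _ a m hm hnb]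
    simp [dual]
  -- the directions
  have hv' : ∀ (a₀ : Fin s) (m₀ : Fin (N + 1 + 1) ⊕ Fin r →₀ ℕ),
      Finsupp.weight (wt e) m₀ = D a₀ →
      ∃ v : TT N r s → K, ∀ (a : Fin s) (m : Fin (N + 1 + 1) ⊕ Fin r →₀ ℕ),
        Finsupp.weight (wt e) m = D a →
        TrivSqZeroExt.snd (coeff m (UF e D (dual (pt B) v) a)) =
        if a = a₀ ∧ m = m₀ then 1 else 0 := by
    intro a₀ m₀ hm₀
    by_cases h0 : nb m₀
    · refine ⟨Sum.elim (fun _ => 0) fun am => if am.1 = a₀ ∧ am.2 = m₀ then 1 else 0,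
        fun a m hm => ?_⟩
      by_cases h1 : nb m
      · rw [snb _ _ a m hm h1]
        rfl
      · have h2 := eq_bi m h1
        set p := m (Sum.inl 0) with hp
        set p' := m (Sum.inl 1) with hp'
        have h3 : p + p' = D a := by rw [← hm, h2, weight_bi]
        have h4 : p' = D a - p := by omega
        rw [if_neg (fun h : a = a₀ ∧ m = m₀ => h1 (h.2 ▸ h0)), h2, h4, hD1 K N r s e D he _ _ (fun c => rfl) a p
          (by omega)]
        have h5 : ∀ c : Cv N r, dl e (Sum.elim (fun _ => 0) fun am : Fin s ×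
            (Fin (N + 1 + 1) ⊕ Fin r →₀ ℕ) => if am.1 = a₀ ∧ am.2 = m₀ then (1 : K) else 0) c
            = 0 := by
          intro c
          unfold dl
          simp
        simp [h5]
    · have h2 := eq_bi m₀ h0
      set p₀ := m₀ (Sum.inl 0) with hp₀
      set p₀' := m₀ (Sum.inl 1) with hp₀'
      have h3 : p₀ + p₀' = D a₀ := by rw [← hm₀, h2, weight_bi]
      have h4 : p₀' = D a₀ - p₀ := by omega
      obtain ⟨δ, hδ, hf⟩ := hsurj (fun a => if a = a₀ then Polynomial.X ^ p₀ else 0) (by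
        intro a
        split_ifs with h
        · subst h
          rw [Polynomial.natDegree_X_pow]
          omega
        · simp)
      refine ⟨Sum.elim (fun cl => -(δ cl.1).coeff cl.2) fun _ => 0, fun a m hm => ?_⟩
      by_cases h1 : nb m
      · rw [snb _ _ a m hm h1, if_neg (fun h : a = a₀ ∧ m = m₀ => h0 (h.2 ▸ h1))]
        rfl
      · have h2' := eq_bi m h1
        set p := m (Sum.inl 0) with hp
        set p' := m (Sum.inl 1) with hp'
        have h3' : p + p' = D a := by rw [← hm, h2', weight_bi]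
        have h4' : p' = D a - p := by omega
        have h5 : ∀ c : Cv N r, dl e (Sum.elim (fun cl : Cv N r × ℕ => -(δ cl.1).coeff cl.2)
            fun _ : Fin s × (Fin (N + 1 + 1) ⊕ Fin r →₀ ℕ) => (0 : K)) c = - δ c := by
          intro c
          unfold dl
          simp only [Sum.elim_inl, map_neg, neg_mul, Finset.sum_neg_distrib, neg_inj]
          exact ((δ c).as_sum_range_C_mul_X_pow' (Nat.lt_succ_of_le (hδ c))).symm
        have h6 : TrivSqZeroExt.snd (coeff m (UF e D (dual (pt B)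
            (Sum.elim (fun cl : Cv N r × ℕ => -(δ cl.1).coeff cl.2)
            fun _ : Fin s × (Fin (N + 1 + 1) ⊕ Fin r →₀ ℕ) => (0 : K))) a)) =
            ((if a = a₀ then Polynomial.X ^ p₀ else 0 : Polynomial K)).coeff p := by
          have h7 := hf a
          rw [h7]
          conv_lhs => rw [h2', h4']
          rw [hD1 K N r s e D he _ _ (fun c => rfl) a p (by omega)]
          simp only [h5, BB_eq e D B hB, neg_mul, Finset.sum_neg_distrib, Polynomial.coeff_neg,
            neg_neg]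
        rw [h6]
        by_cases ha : a = a₀
        · subst ha
          rw [if_pos rfl, Polynomial.coeff_X_pow]
          by_cases hpp : p = p₀
          · rw [if_pos hpp, if_pos]
            refine ⟨rfl, ?_⟩
            rw [h2, h2', hpp]
            congr 1
            omega
          · rw [if_neg hpp, if_neg]
            rintro ⟨-, h⟩
            exact hpp (by rw [hp, hp₀, h])
        · rw [if_neg ha, if_neg (fun h => ha h.1), Polynomial.coeff_zero]
  have hv : ∀ i : (a : Fin s) ×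
      {m : Fin (N + 1 + 1) ⊕ Fin r →₀ ℕ // Finsupp.weight (wt e) m = D a},
      ∃ v : TT N r s → K, ∀ (a : Fin s) (m : Fin (N + 1 + 1) ⊕ Fin r →₀ ℕ),
        Finsupp.weight (wt e) m = D a →
        TrivSqZeroExt.snd (coeff m (UF e D (dual (pt B) v) a)) =
        if a = i.1 ∧ m = i.2.1 then 1 else 0 := fun i => hv' i.1 i.2.1 i.2.2
  choose v hv using hv
  refine hJAC K _ (TT N r s) _ (pt B) v ?_
  intro i i'
  rw [e1, hv i i'.1 i'.2.1 i'.2.2]
  obtain ⟨a', m', hm'⟩ := i'
  obtain ⟨a, m, hm⟩ := i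
  by_cases h : a' = a ∧ m' = m
  · obtain ⟨h, h'⟩ := h
    subst h
    subst h'
    simp
  · rw [if_neg h, if_neg]
    intro h'
    apply h
    simp only [Sigma.mk.injEq] at h'
    obtain ⟨h1, h2⟩ := h'
    subst h1
    simp only [heq_eq_eq, Subtype.mk.injEq] at h2
    exact ⟨rfl, h2⟩

end Pool.Agent.Helper81.WL.GENW
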